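import Pool.Agent.H987.Z.StC

/-! Parts C2 and C3: the kinetic energy of the tree of sheets and the equation of the root sheet. -/

set_option autoImplicit false
set_option linter.unusedSectionVars false

open scoped BigOperators InnerProductSpace Topology
open Filter

namespace Pool.Agent.H30.Z987

open Pool.Agent.H987.Z
open Pool.Agent.Y662.TR (LL Cf Mw dv lmk ll_sum ll_summable ll_inner ll_coord ev ev_apply
  add_coord sub_coord neg_coord smul_coord ll_ext inner_dv dv_self dv_ne dv_apply Cf_apply Cf_norm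
  Cf_dv Cf_dv_ne Cf_adj Cf_adj_ne Cf_adj_norm clp clp_abs clp_eq Mw_apply Mw_norm Mw_sa)
open Pool.Agent.TH369.AN (Rz rz_eq rz_uniq rz_norm)

section real

variable {ι κ : Type}

/-- the operator commutes with the complex conjugation -/
def Rl (T : LL ι →L[ℂ] LL κ) : Prop :=
  ∀ u w : LL ι, (∀ x, w x = (starRingEnd ℂ) (u x)) → ∀ x, T w x = (starRingEnd ℂ) (T u x)

theorem cj_ex (u : LL ι) : ∃ w : LL ι, ∀ x, w x = (starRingEnd ℂ) (u x) :=
  ⟨lmk (fun x => (starRingEnd ℂ) (u x)) (by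
    simpa only [Complex.norm_conj] using ll_summable u), fun _ => rfl⟩

theorem dv_real (a x : ι) : (starRingEnd ℂ) (dv a x) = dv a x := by
  rw [dv_apply]
  split_ifs <;> simp

theorem Rl.add {S T : LL ι →L[ℂ] LL κ} (hS : Rl S) (hT : Rl T) : Rl (S + T) := by
  intro u w h x
  have h1 : (S + T) w x = S w x + T w x := rfl
  have h2 : (S + T) u x = S u x + T u x := rfl
  rw [h1, h2, hS u w h x, hT u w h x, map_add]

theorem Rl.smul {S : LL ι →L[ℂ] LL κ} (hS : Rl S) (a : ℝ) : Rl ((a : ℂ) • S) := by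
  intro u w h x
  have h1 : ((a : ℂ) • S) w x = (a : ℂ) * S w x := rfl
  have h2 : ((a : ℂ) • S) u x = (a : ℂ) * S u x := rfl
  rw [h1, h2, hS u w h x, map_mul, Complex.conj_ofReal]

theorem Rl.zero : Rl (0 : LL ι →L[ℂ] LL κ) := by
  intro u w h x
  have h1 : (0 : LL ι →L[ℂ] LL κ) w x = 0 := rfl
  have h2 : (0 : LL ι →L[ℂ] LL κ) u x = 0 := rfl
  rw [h1, h2, map_zero]

theorem Rl.sum {α : Type} (F : Finset α) (f : α → (LL ι →L[ℂ] LL κ)) (hf : ∀ i, Rl (f i)) :
    Rl (∑ i ∈ F, f i) := by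
  classical
  induction F using Finset.induction_on with
  | empty =>
    rw [Finset.sum_empty]
    exact Rl.zero
  | insert a s ha ih =>
    rw [Finset.sum_insert ha]
    exact (hf a).add ih

theorem Rl.adj {T : LL ι →L[ℂ] LL κ} (hT : Rl T) : Rl (ContinuousLinearMap.adjoint T) := by
  intro u w h x
  rw [← inner_dv x, ← inner_dv x, ContinuousLinearMap.adjoint_inner_right,
    ContinuousLinearMap.adjoint_inner_right]
  have hr : ∀ y, (starRingEnd ℂ) (T (dv x) y) = T (dv x) y := by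
    intro y
    exact (hT (dv x) (dv x) (fun z => (dv_real x z).symm) y).symm
  have h1 := (ll_inner (T (dv x)) w).tsum_eq
  have h2 := (ll_inner (T (dv x)) u).tsum_eq
  rw [← h1, ← h2, Complex.conj_tsum]
  refine tsum_congr fun y => ?_
  rw [h y, map_mul, Complex.conj_conj, hr y]

/-- self-adjoint and real operators have a symmetric kernel -/
theorem Rs_of {T : LL ι →L[ℂ] LL ι} (hs : IsSelfAdjoint T) (hT : Rl T) : Rs T := by
  refine ⟨hs, fun u v => ?_⟩
  obtain ⟨w, hw⟩ := cj_ex u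
  have h1 : ∀ x, T w x = (starRingEnd ℂ) (T u x) := hT u w hw
  have h2 := (ll_inner (T w) v).tsum_eq
  have h3 := (ll_inner w (T v)).tsum_eq
  have h4 : ⟪T w, v⟫_ℂ = ⟪w, T v⟫_ℂ := hs.isSymmetric w v
  rw [← h2, ← h3] at h4
  simp only [h1, hw, Complex.conj_conj] at h4
  exact h4

/-- operators with a symmetric kernel are real -/
theorem Rl_of {T : LL ι →L[ℂ] LL ι} (h : Rs T) : Rl T := by
  intro u w hw x
  have e1 : ∑' y, T (dv x) y * w y = T w x := by
    rw [h.bil (dv x) w, tsum_eq_single x]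
    · rw [dv_self, one_mul]
    · intro y hy
      rw [dv_ne hy, zero_mul]
  have e2 : ∑' y, (starRingEnd ℂ) (T (dv x) y) * u y = T u x := by
    have h3 := (ll_inner (T (dv x)) u).tsum_eq
    rw [h3]
    have h4 : ⟪T (dv x), u⟫_ℂ = ⟪dv x, T u⟫_ℂ := h.sa.isSymmetric (dv x) u
    rw [h4, inner_dv]
  rw [← e1, ← e2, Complex.conj_tsum]
  refine tsum_congr fun y => ?_
  rw [hw y, map_mul, Complex.conj_conj]

end real

section tree

variable {G : Type} [Group G] {n : ℕ}

theorem shp_RA : RA (shp (G := G) (n := n)) := by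
  refine ⟨fun x => ?_, fun s t x => ?_⟩
  · obtain ⟨l, x⟩ := x
    simp [shp]
  · obtain ⟨l, x⟩ := x
    simp [shp, mul_assoc]

theorem mulRight_RA : RA (fun s : G => Equiv.mulRight s) := by
  refine ⟨fun x => ?_, fun s t x => ?_⟩
  · simp
  · simp [mul_assoc]

theorem JB_norm (τ : Vt G n → Fin (n + 1) → ℝ) (j : Fin (n + 1)) : ‖JB τ j‖ ≤ 1 := by
  unfold JB
  refine (norm_mul_le _ _).trans ?_
  have h1 := Mw_norm 1 (fun v => τ v j)
  have h2 := Cf_norm (ch (G := G) (n := n) j) (ch_inj j)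
  rw [abs_one] at h1
  calc _ ≤ (1 : ℝ) * 1 := by gcongr
    _ = 1 := one_mul _

theorem JB_apply (τ : Vt G n → Fin (n + 1) → ℝ) (j : Fin (n + 1)) (u : LL (Vt G n))
    (v : Vt G n) : JB τ j u v = ((clp 1 (τ v j) : ℝ) : ℂ) * u (ch j v) := rfl

theorem JB_Rl (τ : Vt G n → Fin (n + 1) → ℝ) (j : Fin (n + 1)) : Rl (JB τ j) := by
  intro u w h x
  rw [JB_apply, JB_apply, h, map_mul, Complex.conj_ofReal]

theorem add_adj_sa {ι : Type} (A : LL ι →L[ℂ] LL ι) :
    IsSelfAdjoint (A + ContinuousLinearMap.adjoint A) := by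
  have h := IsSelfAdjoint.add_star_self A
  rwa [ContinuousLinearMap.star_eq_adjoint] at h

theorem tree (h : S_conv) : S_tree := by
  intro G _ n b hb a τ
  obtain ⟨_, h1, h2, _⟩ := h G (Vt G n) shp shp_RA b b hb hb
  refine ⟨Rs_of ?_ ?_, ?_⟩
  · unfold TB
    refine IsSelfAdjoint.add h2.sa ?_
    refine IsSelfAdjoint.smul ?_ (isSelfAdjoint_sum _ fun i _ => add_adj_sa _)
    rw [isSelfAdjoint_iff]
    exact Complex.conj_ofReal a
  · unfold TB
    exact (Rl_of h2).add ((Rl.sum _ _ fun j => (JB_Rl τ j).add (JB_Rl τ j).adj).smul a)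
  · unfold TB
    refine (norm_add_le _ _).trans ?_
    refine add_le_add h1 ?_
    rw [norm_smul, Complex.norm_real, Real.norm_eq_abs]
    have h3 : ‖∑ j : Fin (n + 1), (JB τ j + ContinuousLinearMap.adjoint (JB τ j))‖ ≤
        2 * ((n : ℝ) + 1) := by
      refine (norm_sum_le _ _).trans ?_
      have h4 : ∀ j ∈ (Finset.univ : Finset (Fin (n + 1))),
          ‖JB τ j + ContinuousLinearMap.adjoint (JB τ j)‖ ≤ 2 := by
        intro j _
        refine (norm_add_le _ _).trans ?_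
        rw [LinearIsometryEquiv.norm_map]
        have := JB_norm τ j
        linarith
      refine (Finset.sum_le_sum h4).trans (le_of_eq ?_)
      simp [mul_comm]
    calc |a| * _ ≤ |a| * (2 * ((n : ℝ) + 1)) := by gcongr
      _ = _ := by ring

open Classical in
/-- the term of the parent -/
noncomputable def par (τ : Vt G n → Fin (n + 1) → ℝ) (u : Vt G n → ℂ) : Vt G n → ℂ
  | ([], _) => 0
  | ((y, j) :: l, x) => if x = 1 then ((clp 1 (τ (l, y) j) : ℝ) : ℂ) * u (l, y) else 0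

open Classical in
/-- the term of the parent for one label -/
noncomputable def par1 (τ : Vt G n → Fin (n + 1) → ℝ) (u : Vt G n → ℂ) (i : Fin (n + 1)) :
    Vt G n → ℂ
  | ([], _) => 0
  | ((y, j) :: l, x) => if x = 1 ∧ i = j then ((clp 1 (τ (l, y) i) : ℝ) : ℂ) * u (l, y) else 0

theorem JB_adj (τ : Vt G n → Fin (n + 1) → ℝ) (j : Fin (n + 1)) (u : LL (Vt G n)) :
    ContinuousLinearMap.adjoint (JB τ j) u =
      ContinuousLinearMap.adjoint (Cf (ch j) (ch_inj j)) (Mw 1 (fun v => τ v j) u) := by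
  unfold JB
  have h := (Mw_sa 1 (fun v : Vt G n => τ v j))
  rw [ContinuousLinearMap.mul_def, ContinuousLinearMap.adjoint_comp]
  have h2 : ContinuousLinearMap.adjoint (Mw 1 (fun v : Vt G n => τ v j)) =
      Mw 1 (fun v : Vt G n => τ v j) := by
    rw [← ContinuousLinearMap.star_eq_adjoint]
    exact h.star_eq
  rw [h2]
  rfl

theorem JB_adj_apply (τ : Vt G n → Fin (n + 1) → ℝ) (i : Fin (n + 1)) (u : LL (Vt G n))
    (v : Vt G n) :
    ContinuousLinearMap.adjoint (JB τ i) u v = par1 τ (fun w => u w) i v := by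
  rw [JB_adj]
  obtain ⟨l, x⟩ := v
  cases l with
  | nil =>
    rw [Cf_adj_ne]
    · rfl
    · rintro ⟨l', x'⟩ h
      unfold ch at h
      simp at h
  | cons p l =>
    obtain ⟨y, j⟩ := p
    by_cases hx : x = 1 ∧ i = j
    · obtain ⟨hx, hj⟩ := hx
      subst hx
      subst hj
      have h1 : (((y, i) :: l, 1) : Vt G n) = ch i (l, y) := rfl
      rw [h1, Cf_adj, Mw_apply]
      unfold par1 ch
      simp
    · rw [Cf_adj_ne]
      · unfold par1
        simp [hx]
      · rintro ⟨l', x'⟩ h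
        unfold ch at h
        simp only [Prod.mk.injEq, List.cons.injEq] at h
        exact hx ⟨h.2.symm, h.1.1.2⟩

theorem par_sum (τ : Vt G n → Fin (n + 1) → ℝ) (u : Vt G n → ℂ) (v : Vt G n) :
    ∑ i : Fin (n + 1), par1 τ u i v = par τ u v := by
  obtain ⟨l, x⟩ := v
  cases l with
  | nil =>
    unfold par1 par
    simp
  | cons p l =>
    obtain ⟨y, j⟩ := p
    unfold par1 par
    by_cases hx : x = 1
    · simp [hx]
    · simp [hx]

/-- the action of the kinetic energy -/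
theorem TB_apply (h : S_conv) {b : G → ℝ} (hb : Sy b) (a : ℝ) (τ : Vt G n → Fin (n + 1) → ℝ)
    (u : LL (Vt G n)) (v : Vt G n) :
    TB b a τ u v = (∑' s, ((b s : ℝ) : ℂ) * u (v.1, v.2 * s)) +
      (a : ℂ) * ((∑ j : Fin (n + 1), ((clp 1 (τ v j) : ℝ) : ℂ) * u (ch j v)) +
        par τ (fun w => u w) v) := by
  obtain ⟨h0, _⟩ := h G (Vt G n) shp shp_RA b b hb hb
  have h1 := (h0 u v).2
  unfold TB
  rw [← ev_apply v]
  simp only [ContinuousLinearMap.add_apply, ContinuousLinearMap.smul_apply, map_add, map_smul,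
    ContinuousLinearMap.sum_apply, map_sum, ev_apply, JB_apply, JB_adj_apply, smul_eq_mul]
  rw [h1, Finset.sum_add_distrib, par_sum]
  rfl

/-- **the subtree** -/
theorem sub_apply (h : S_conv) {b : G → ℝ} (hb : Sy b) (a : ℝ) (τ : Vt G n → Fin (n + 1) → ℝ)
    (y : G) (j : Fin (n + 1)) (l0 : List (Ix G n)) (u : LL (Vt G n)) (v : Vt G n) :
    TB b a (fun w => τ (jp ((y, j) :: l0) w)) (Cf (jp ((y, j) :: l0)) (jp_inj _) u) v =
      TB b a τ u (jp ((y, j) :: l0) v) -
        ((a : ℂ) * (((clp 1 (τ (l0, y) j) : ℝ) : ℂ) * u (l0, y))) * dv oo v := by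
  rw [TB_apply h hb, TB_apply h hb]
  have h1 : ∀ w : Vt G n, Cf (jp ((y, j) :: l0)) (jp_inj _) u w = u (jp ((y, j) :: l0) w) :=
    fun w => rfl
  simp only [h1]
  have h2 : ∀ i, jp ((y, j) :: l0) (ch i v) = ch i (jp ((y, j) :: l0) v) := fun i => rfl
  simp only [h2]
  have h3 : par (fun w => τ (jp ((y, j) :: l0) w)) (fun w => u (jp ((y, j) :: l0) w)) v =
      par τ (fun w => u w) (jp ((y, j) :: l0) v) -
        (((clp 1 (τ (l0, y) j) : ℝ) : ℂ) * u (l0, y)) * dv oo v := by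
    obtain ⟨l, x⟩ := v
    cases l with
    | nil =>
      unfold jp par oo
      simp only [List.nil_append]
      by_cases hx : x = 1
      · subst hx
        rw [dv_self]
        simp
      · rw [dv_ne (by
          intro h
          simp only [Prod.mk.injEq, true_and] at h
          exact hx h)]
        simp [hx]
    | cons p l =>
      have h4 : dv oo ((p :: l, x) : Vt G n) = 0 := dv_ne (by
        unfold oo
        simp)
      rw [h4]
      unfold jp par
      simp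
  rw [h3]
  simp only [jp]
  ring

/-- the resolvent restricted to a subtree -/
theorem rz_sub_apply (h : S_conv) {b : G → ℝ} (hb : Sy b) (a : ℝ)
    (τ : Vt G n → Fin (n + 1) → ℝ) (V : Vt G n → ℝ)
    (hT : IsSelfAdjoint (HV (TB b a τ) V)) (z : ℂ) (hz : z.im ≠ 0)
    (y : G) (j : Fin (n + 1)) (l0 : List (Ix G n))
    (hT' : IsSelfAdjoint (HV (TB b a (fun w => τ (jp ((y, j) :: l0) w)))
      (fun w => V (jp ((y, j) :: l0) w)))) (f : LL (Vt G n)) :
    Cf (jp ((y, j) :: l0)) (jp_inj _) (Rz (HV (TB b a τ) V) z f) =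
      Rz (HV (TB b a (fun w => τ (jp ((y, j) :: l0) w))) (fun w => V (jp ((y, j) :: l0) w))) z
        (Cf (jp ((y, j) :: l0)) (jp_inj _) f) -
      ((a : ℂ) * (((clp 1 (τ (l0, y) j) : ℝ) : ℂ) * Rz (HV (TB b a τ) V) z f (l0, y))) •
        Rz (HV (TB b a (fun w => τ (jp ((y, j) :: l0) w))) (fun w => V (jp ((y, j) :: l0) w))) z
          (dv oo) := by
  obtain ⟨T', hTT⟩ : ∃ T', T' = HV (TB b a (fun w => τ (jp ((y, j) :: l0) w)))
      (fun w => V (jp ((y, j) :: l0) w)) := ⟨_, rfl⟩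
  obtain ⟨u, hu⟩ : ∃ u, u = Rz (HV (TB b a τ) V) z f := ⟨_, rfl⟩
  obtain ⟨c, hc⟩ : ∃ c : ℂ, c = (a : ℂ) * (((clp 1 (τ (l0, y) j) : ℝ) : ℂ) * u (l0, y)) :=
    ⟨_, rfl⟩
  rw [← hTT] at hT' ⊢
  rw [← hu, ← hc, ← map_smul, ← map_sub]
  apply rz_uniq T' hT' z hz
  apply ll_ext
  intro v
  rw [sub_coord, smul_coord, sub_coord, smul_coord, hTT]
  have h0 : ∀ (A : LL (Vt G n) →L[ℂ] LL (Vt G n)) (W : Vt G n → ℝ) (w : LL (Vt G n))
      (x : Vt G n), HV A W w x = A w x + ((clp 1 (W x) : ℝ) : ℂ) * w x := fun A W w x => rfl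
  rw [h0, sub_apply h hb, ← hc]
  have h1 := rz_eq _ hT z hz f
  rw [← hu] at h1
  have h2 : HV (TB b a τ) V u (jp ((y, j) :: l0) v) - z * u (jp ((y, j) :: l0) v) =
      f (jp ((y, j) :: l0) v) := by
    rw [← h1, sub_coord, smul_coord]
  rw [h0] at h2
  rw [Cf_apply, Cf_apply, ← h2]
  ring

theorem ch_eq (l0 : List (Ix G n)) (y : G) (j : Fin (n + 1)) :
    ch j ((l0, y) : Vt G n) = jp ((y, j) :: l0) oo := rfl

/-- the value at the origin of an attached sheet, when the source is elsewhere -/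
theorem rz_child (h : S_conv) {b : G → ℝ} (hb : Sy b) (a : ℝ)
    (τ : Vt G n → Fin (n + 1) → ℝ) (V : Vt G n → ℝ)
    (hT : IsSelfAdjoint (HV (TB b a τ) V)) (z : ℂ) (hz : z.im ≠ 0)
    (y : G) (j : Fin (n + 1)) (l0 : List (Ix G n))
    (hT' : IsSelfAdjoint (HV (TB b a (fun w => τ (jp ((y, j) :: l0) w)))
      (fun w => V (jp ((y, j) :: l0) w))))
    (c : Vt G n) (hc : ∀ v, jp ((y, j) :: l0) v ≠ c) :
    Rz (HV (TB b a τ) V) z (dv c) (ch j (l0, y)) =
      -((a : ℂ) * (((clp 1 (τ (l0, y) j) : ℝ) : ℂ) * Rz (HV (TB b a τ) V) z (dv c) (l0, y))) *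
        GB b a (fun w => τ (jp ((y, j) :: l0) w)) (fun w => V (jp ((y, j) :: l0) w)) z := by
  have h1 := rz_sub_apply h hb a τ V hT z hz y j l0 hT' (dv c)
  rw [Cf_dv_ne _ _ c hc, map_zero, zero_sub] at h1
  have h2 := congrArg (fun u : LL (Vt G n) => u oo) h1
  simp only [Cf_apply, neg_coord, smul_coord] at h2
  rw [ch_eq, h2]
  unfold GB Gr
  ring

theorem nl_inj : Function.Injective (fun x : G => (([], x) : Vt G n)) := by
  intro x y h
  simpa using h

theorem root (h0 : S_conv) (h1 : S_green) (h2 : S_tree) : S_root := by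
  intro G _ n b hb a τ hτ V z hz
  have hR : ∀ (τ' : Vt G n → Fin (n + 1) → ℝ) (V' : Vt G n → ℝ),
      IsSelfAdjoint (HV (TB b a τ') V') := by
    intro τ' V'
    exact (((h1 (Vt G n) (TB b a τ') (h2 G n b hb a τ').1).1) V').1.sa
  refine ⟨Cf (fun x : G => (([], x) : Vt G n)) nl_inj (Rz (HV (TB b a τ) V) z (dv oo)),
    fun x => rfl, fun x => ?_⟩
  obtain ⟨u, hu⟩ : ∃ u, u = Rz (HV (TB b a τ) V) z (dv oo) := ⟨_, rfl⟩
  rw [← hu]
  have e1 := rz_eq _ (hR τ V) z hz (dv oo)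
  rw [← hu] at e1
  have e2 : HV (TB b a τ) V u ([], x) - z * u ([], x) = dv (oo : Vt G n) ([], x) := by
    rw [← e1, sub_coord, smul_coord]
  have g0 : HV (TB b a τ) V u ([], x) =
      TB b a τ u ([], x) + ((clp 1 (V ([], x)) : ℝ) : ℂ) * u ([], x) := rfl
  rw [g0, TB_apply h0 hb] at e2
  have e3 : ∀ j, u (ch j (([], x) : Vt G n)) =
      -((a : ℂ) * (((τ ([], x) j : ℝ) : ℂ) * u ([], x))) *
        GB b a (fun w => τ (jp [(x, j)] w)) (fun w => V (jp [(x, j)] w)) z := by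
    intro j
    have := rz_child h0 hb a τ V (hR _ _) z hz x j [] (hR _ _) oo (by
      rintro ⟨l, x'⟩ h
      unfold jp oo at h
      simp at h)
    rw [← hu, clp_eq (by rw [abs_one]; exact hτ _ _)] at this
    exact this
  have e4 : ∀ j, clp 1 (τ ([], x) j) = τ ([], x) j := fun j => clp_eq (by
    rw [abs_one]
    exact hτ _ _)
  simp only [e3, e4] at e2
  have e5 : par τ (fun w => u w) (([], x) : Vt G n) = 0 := rfl
  rw [e5] at e2
  have e6 : dv (oo : Vt G n) ([], x) = dv (1 : G) x := by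
    by_cases hx : x = 1
    · subst hx
      have : (([], 1) : Vt G n) = oo := rfl
      rw [this, dv_self, dv_self]
    · rw [dv_ne hx, dv_ne (by
        intro h
        unfold oo at h
        simp only [Prod.mk.injEq, true_and] at h
        exact hx h)]
  rw [← e6, ← e2]
  obtain ⟨k0, _⟩ := h0 G G (fun s => Equiv.mulRight s) mulRight_RA b b hb hb
  have k1 := (k0 (Cf (fun x : G => (([], x) : Vt G n)) nl_inj u) x).2
  have g1 : HV (KT b) (fun y => V ([], y)) (Cf (fun x : G => (([], x) : Vt G n)) nl_inj u) x =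
      KT b (Cf (fun x : G => (([], x) : Vt G n)) nl_inj u) x +
        ((clp 1 (V ([], x)) : ℝ) : ℂ) * u ([], x) := rfl
  have g2 : KT b (Cf (fun x : G => (([], x) : Vt G n)) nl_inj u) x =
      ∑' s, ((b s : ℝ) : ℂ) * u ([], x * s) := by
    unfold KT
    rw [k1]
    rfl
  rw [g1, g2, Cf_apply]
  have g3 : ∑ j : Fin (n + 1), ((τ ([], x) j : ℝ) : ℂ) *
      (-((a : ℂ) * (((τ ([], x) j : ℝ) : ℂ) * u ([], x))) *
        GB b a (fun w => τ (jp [(x, j)] w)) (fun w => V (jp [(x, j)] w)) z) =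
      -((a : ℂ) * u ([], x)) * ∑ j : Fin (n + 1), ((τ ([], x) j : ℝ) : ℂ) ^ 2 *
        GB b a (fun w => τ (jp [(x, j)] w)) (fun w => V (jp [(x, j)] w)) z := by
    rw [Finset.mul_sum]
    refine Finset.sum_congr rfl fun j _ => ?_
    ring
  rw [g3]
  ring

end tree

end Pool.Agent.H30.Z987
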